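import Mathlib
import Pool.Agent.H387R2.UDefs
import Pool.Agent.H373R2.T7.LamZ

set_option autoImplicit false

/-!
# Project KT: the lower half of the Hardy-Littlewood formula for the subsets of every sparse set of shifts

Statements of the parts.
-/

namespace Pool.Agent.L7h72.KT

open Finset
open Pool.Agent.H387R2.Uni (nuT locT CT Adm)
open Pool.Agent.H373R2.T7 (pz Vz)

/-- the singular series truncated at `z` -/
noncomputable def GT (z : ℕ) (D : Finset ℕ) : ℝ := ∏ p ∈ pz z, locT D p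

/-- the number of the `1 ≤ m ≤ x` with all `m + d`, `d ∈ D`, prime -/
noncomputable def tc (x : ℝ) (D : Finset ℕ) : ℕ := ((Icc 1 ⌊x⌋₊).filter (fun m => ∀ d ∈ D, (m + d).Prime)).card

/-- [SER] The singular series is at most its truncation, if `D ⊆ [0, H]` and `H < z`. Proof: `CT_hasProd`
(`Pool/Agent/H387R2/U2.lean`); for a prime `p > z` all elements of `D` are different modulo `p`, so
`nuT D p = D.card =: k ≤ p` and `locT D p = (1 - k/p) / (1 - 1/p)^k ≤ 1` (Bernoulli), `≥ 0`; all `locT D p ≥ 0`;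
so the partial products over finite sets containing the primes `≤ z` are at most `GT z D`
(compare `S_le_G`, `C2_le` in `Pool/Agent/L7h72/HW/Ser.lean`). -/
def S_SER : Prop := ∀ (D : Finset ℕ) (H z : ℕ), (∀ d ∈ D, d ≤ H) → H < z → CT D ≤ GT z D

/-- [UPP] The uniform upper bound, for all sets of `k ≥ 1` elements. Proof: `Pool.Agent.W218.TX.pi_upper (k - 1)`
for the translate `D - min D` (`CT_add`, `piT_add` in `Pool/Agent/TH891/SG/Cnt3.lean`; `m + min D` is counted up to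
`x + log x ^ B`, or use `pi_upper` at `N = ⌊x⌋ + min D ≤ 2 x`). If `D` is not admissible, some prime `p ≤ k` divides one
of the `m + d` for every `m`, so `m + d = p` and `m ≤ k`, and `tc x D ≤ k`. -/
def S_UPP : Prop := ∀ k : ℕ, 1 ≤ k → ∃ C : ℝ, 0 < C ∧ ∀ B : ℕ, ∃ X : ℝ, ∀ x : ℝ, X ≤ x → ∀ D : Finset ℕ, D.card = k →
  (∀ d ∈ D, (d : ℝ) ≤ Real.log x ^ B) →
    (tc x D : ℝ) * Real.log x ^ k ≤ C * CT D * x + k * Real.log x ^ k

/-- [BIN] Counting: `∑_{D ⊆ A, |D| = k} #{m ∈ M : P (m + d) for all d ∈ D} = ∑_{m ∈ M} C(#{a ∈ A : P (m + a)}, k)`. -/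
def S_BIN : Prop := ∀ (P : ℕ → Prop) [DecidablePred P] (M A : Finset ℕ) (k : ℕ),
  ∑ D ∈ A.powersetCard k, (M.filter (fun m => ∀ d ∈ D, P (m + d))).card =
    ∑ m ∈ M, ((A.filter (fun a => P (m + a))).card).choose k

/-- [FAC] `N^k ≥ k! C(N, k) ≥ N^k - k(k-1)/2 N^(k-1)` for natural numbers (induction on `k`). -/
def S_FAC : Prop := ∀ (n k : ℕ), 1 ≤ k →
  (k.factorial : ℝ) * (n.choose k : ℝ) ≤ (n : ℝ) ^ k ∧
    (n : ℝ) ^ k - (k : ℝ) ^ 2 * (n : ℝ) ^ (k - 1) ≤ (k.factorial : ℝ) * (n.choose k : ℝ)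

end Pool.Agent.L7h72.KT
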