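import Mathlib
import Pool.Agent.L7h72.HW.Lam
import Pool.Agent.H373R2.T7.TupleMain2

set_option autoImplicit false

/-! Correlations of tuples. -/

namespace Pool.Agent.L7h72.KT

open Finset
open Pool.Agent.H373R2.T7
open Pool.Agent.L7h72.HW

/-- `k` shifts -/
def Qt {k : ℕ} (a : Fin k → ℤ) (p n : ℕ) : Prop := ∃ i, Q1 (a i) p n

lemma Qt_per {k : ℕ} (a : Fin k → ℤ) (p n : ℕ) : Qt a p n ↔ Qt a p (n % p) :=
  exists_congr fun i => Q1_per (a i) p n

open Classical in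
lemma nuB_Qt {k p : ℕ} (hp : 0 < p) (a : Fin k → ℤ) : nuB (Qt a) p = (univ.image (fun i => cls p (a i))).card := by
  unfold nuB
  congr 1
  ext r
  rw [mem_filter, mem_range, mem_image]
  constructor
  · rintro ⟨h1, i, hi⟩
    exact ⟨i, mem_univ _, ((Q1_iff hp (a i) h1).1 hi).symm⟩
  · rintro ⟨i, _, rfl⟩
    exact ⟨cls_lt hp _, i, (Q1_iff hp (a i) (cls_lt hp _)).2 rfl⟩

lemma perB_Qt {k : ℕ} (a : Fin (k + 1) → ℤ) : PerB (Qt a) (k + 1) :=
  ⟨Qt_per a, fun p hp => by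
    rw [nuB_Qt hp.pos]
    refine card_image_le.trans ?_
    simp⟩

lemma ker_le {ι : Type} [Fintype ι] (f g : ι → ℕ) (h : ∀ i j, g i = g j → f i = f j) :
    (univ.image f).card ≤ (univ.image g).card := by
  classical
  obtain ⟨F, hF⟩ : ∃ F : ℕ → ℕ, ∀ i, f i = F (g i) := by
    refine ⟨fun y => if hy : ∃ i, g i = y then f hy.choose else 0, fun i => ?_⟩
    have hy : ∃ j, g j = g i := ⟨i, rfl⟩
    simp only
    rw [dif_pos hy]
    exact h _ _ hy.choose_spec.symm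
  have : univ.image f ⊆ (univ.image g).image F := by
    intro y hy
    rw [mem_image] at hy
    obtain ⟨i, _, rfl⟩ := hy
    rw [mem_image]
    exact ⟨g i, mem_image_of_mem _ (mem_univ _), (hF i).symm⟩
  exact (card_le_card this).trans card_image_le

lemma nuB_shift {k p : ℕ} (hp : 0 < p) (a : Fin k → ℤ) (t : ℤ) :
    nuB (Qt (fun i => a i - t)) p = nuB (Qt a) p := by
  rw [nuB_Qt hp, nuB_Qt hp]
  have key : ∀ i j, cls p (a i) = cls p (a j) ↔ cls p (a i - t) = cls p (a j - t) := by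
    intro i j
    rw [cls_eq_iff hp, cls_eq_iff hp]
    have : a j - t - (a i - t) = a j - a i := by ring
    rw [this]
  apply le_antisymm
  · exact ker_le _ _ fun i j h => (key i j).1 h
  · exact ker_le _ _ fun i j h => (key i j).2 h

lemma nuP_eq_nuB {k : ℕ} (a : Fin k → ℤ) (p : ℕ) : nuP a p = nuB (Qt (Fin.cons 0 a : Fin (k + 1) → ℤ)) p := by
  classical
  unfold nuP nuB
  congr 1
  apply filter_congr
  intro r _
  unfold Qt Q1
  rw [Fin.exists_fin_succ]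
  simp only [Fin.cons_zero, Fin.cons_succ, add_zero, Int.natCast_dvd_natCast]

/-- the truncated singular series of a tuple -/
noncomputable def GQ {k : ℕ} (z : ℕ) (a : Fin k → ℤ) : ℝ := (Vz z)⁻¹ ^ k * ∏ p ∈ pz z, (1 - (nuB (Qt a) p : ℝ) / p)

lemma singZ_GQ {k : ℕ} (z : ℕ) (a : Fin k → ℤ) (a0 : ℤ) :
    singZ (fun i => a i - a0) z = GQ z (Fin.cons a0 a : Fin (k + 1) → ℤ) := by
  unfold singZ GQ Vz
  rw [← prod_inv_distrib, ← prod_pow, ← prod_mul_distrib]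
  unfold pz
  apply prod_congr rfl
  intro p hp
  have hpp := (mem_filter.1 hp).2
  rw [nuP_eq_nuB, ← nuB_shift hpp.pos (Fin.cons a0 a : Fin (k + 1) → ℤ) a0]
  have e : (Fin.cons 0 (fun i => a i - a0) : Fin (k + 1) → ℤ) = fun i => (Fin.cons a0 a : Fin (k + 1) → ℤ) i - a0 := by
    funext i
    refine Fin.cases ?_ (fun i => ?_) i
    · simp
    · simp
  rw [e, inv_pow, div_eq_inv_mul]

/-- the sieve model on the integers -/
noncomputable def lz (z : ℕ) (n : ℤ) : ℝ := if ∀ p ∈ pz z, ¬ (p : ℤ) ∣ n then (Vz z)⁻¹ else 0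

lemma lz_nonneg (z : ℕ) (n : ℤ) : 0 ≤ lz z n := by
  unfold lz
  split_ifs
  · exact (inv_pos.2 (Vz_pos z)).le
  · exact le_rfl

open Classical in
lemma prod_lz {k : ℕ} (z m : ℕ) (a : Fin k → ℤ) :
    ∏ i, lz z ((m : ℤ) + a i) = if ∀ p ∈ pz z, ¬ Qt a p m then (Vz z)⁻¹ ^ k else 0 := by
  by_cases h : ∀ p ∈ pz z, ¬ Qt a p m
  · rw [if_pos h, prod_congr rfl (g := fun _ => (Vz z)⁻¹)]
    · rw [prod_const, card_univ, Fintype.card_fin]
    · intro i _
      unfold lz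
      rw [if_pos]
      intro p hp hd
      exact h p hp ⟨i, hd⟩
  · rw [if_neg h]
    push Not at h
    obtain ⟨p, hp, i, hi⟩ := h
    apply prod_eq_zero (mem_univ i)
    unfold lz
    rw [if_neg]
    intro h'
    exact h' p hp hi

open Classical in
theorem cnt (k E U : ℕ) : ∃ N0 : ℕ, ∀ N : ℕ, N0 ≤ N → ∀ z : ℕ, 1 ≤ z → (z : ℝ) ≤ Real.log N ^ E →
    ∀ a : Fin (k + 1) → ℤ, |∑ m ∈ Icc 1 N, ∏ i, lz z ((m : ℤ) + a i) - N * GQ z a| ≤ N / Real.log N ^ U := by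
  obtain ⟨N1, h1⟩ := sys_count (k + 1) E (U + (k + 1)) (by omega)
  obtain ⟨N2, h2⟩ := Vz_inv_small E
  obtain ⟨N3, h3⟩ := ev_L' 1
  refine ⟨N1 + N2 + N3, fun N hN z hz hzE a => ?_⟩
  have a1 := h1 N (by omega) z hz hzE (Qt a) (perB_Qt a)
  have a2 := h2 N (by omega) z hz hzE
  have a3 := h3 N (by omega)
  obtain ⟨L, hL⟩ : ∃ L, L = Real.log (N : ℝ) := ⟨_, rfl⟩
  rw [← hL] at a1 a2 a3 ⊢
  have hV := inv_pos.2 (Vz_pos z)
  have key : ∑ m ∈ Icc 1 N, ∏ i, lz z ((m : ℤ) + a i) =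
      (Vz z)⁻¹ ^ (k + 1) * (((Icc 1 N).filter (fun n : ℕ => ∀ p ∈ pz z, ¬ Qt a p n)).card : ℝ) := by
    rw [card_filter, Nat.cast_sum, mul_sum]
    apply sum_congr rfl
    intro m _
    rw [prod_lz]
    split_ifs <;> simp
  rw [key]
  unfold GQ
  have e : (Vz z)⁻¹ ^ (k + 1) * (((Icc 1 N).filter (fun n : ℕ => ∀ p ∈ pz z, ¬ Qt a p n)).card : ℝ) -
      N * ((Vz z)⁻¹ ^ (k + 1) * ∏ p ∈ pz z, (1 - (nuB (Qt a) p : ℝ) / p)) =
      (Vz z)⁻¹ ^ (k + 1) * ((((Icc 1 N).filter (fun n : ℕ => ∀ p ∈ pz z, ¬ Qt a p n)).card : ℝ) -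
        N * ∏ p ∈ pz z, (1 - (nuB (Qt a) p : ℝ) / p)) := by ring
  rw [e, abs_mul, abs_of_pos (by positivity)]
  have hL0 : 0 < L := by linarith
  calc (Vz z)⁻¹ ^ (k + 1) * |(((Icc 1 N).filter (fun n : ℕ => ∀ p ∈ pz z, ¬ Qt a p n)).card : ℝ) -
        N * ∏ p ∈ pz z, (1 - (nuB (Qt a) p : ℝ) / p)| ≤ L ^ (k + 1) * (N / L ^ (U + (k + 1))) := by
        apply mul_le_mul _ a1 (abs_nonneg _) (by positivity)
        exact pow_le_pow_left₀ hV.le a2 _
    _ = N / L ^ U := by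
        rw [pow_add L U (k + 1)]
        field_simp

lemma one_le_nuB {k p : ℕ} (hp : 0 < p) (a : Fin (k + 1) → ℤ) : 1 ≤ nuB (Qt a) p := by
  classical
  rw [nuB_Qt hp]
  exact card_pos.2 ⟨cls p (a 0), mem_image_of_mem _ (mem_univ _)⟩

lemma GQ_bounds {k : ℕ} (z : ℕ) (a : Fin (k + 1) → ℤ) : 0 ≤ GQ z a ∧ GQ z a ≤ (Vz z)⁻¹ ^ k := by
  have hV := inv_pos.2 (Vz_pos z)
  have h1 : ∀ p ∈ pz z, 0 ≤ 1 - (nuB (Qt a) p : ℝ) / p := by
    intro p hp
    have hp0 := (mem_pz.1 hp).2.pos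
    have : (nuB (Qt a) p : ℝ) ≤ p := by exact_mod_cast nuB_le (Qt a) p
    have hp1 : (0 : ℝ) < p := by exact_mod_cast hp0
    rw [sub_nonneg, div_le_one hp1]
    exact this
  have h2 : ∏ p ∈ pz z, (1 - (nuB (Qt a) p : ℝ) / p) ≤ Vz z := by
    unfold Vz
    apply prod_le_prod h1
    intro p hp
    have hp0 := (mem_pz.1 hp).2.pos
    have hp1 : (0 : ℝ) < p := by exact_mod_cast hp0
    have : (1 : ℝ) ≤ nuB (Qt a) p := by exact_mod_cast one_le_nuB hp0 a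
    have := div_le_div_of_nonneg_right this hp1.le
    linarith
  unfold GQ
  constructor
  · exact mul_nonneg (by positivity) (prod_nonneg h1)
  · calc (Vz z)⁻¹ ^ (k + 1) * ∏ p ∈ pz z, (1 - (nuB (Qt a) p : ℝ) / p) ≤ (Vz z)⁻¹ ^ (k + 1) * Vz z :=
        mul_le_mul_of_nonneg_left h2 (by positivity)
      _ = (Vz z)⁻¹ ^ k := by
        rw [pow_succ, mul_assoc, inv_mul_cancel₀ (Vz_pos z).ne', mul_one]

theorem lamt (k E U : ℕ) (hk : 1 ≤ k) : ∃ N0 : ℕ, ∀ N : ℕ, N0 ≤ N → ∀ z : ℕ, 1 ≤ z → (z : ℝ) ≤ Real.log N ^ E →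
    ∀ (a0 : ℕ) (a : Fin k → ℤ), (a0 : ℝ) ≤ Real.log N ^ E →
    |∑ m ∈ Icc 1 N, tht (m + a0) * ∏ i, lz z ((m : ℤ) + a i) -
      N * GQ z (Fin.cons (a0 : ℤ) a : Fin (k + 1) → ℤ)| ≤ N / Real.log N ^ U := by
  classical
  obtain ⟨N1, h1⟩ := tuple_main k E (U + 1) hk
  obtain ⟨N2, h2⟩ := Vz_inv_small E
  obtain ⟨N3, h3⟩ := ev_L' 8
  obtain ⟨N4, h4⟩ := ev_log' (E + U + k + 4) 100
  refine ⟨N1 + N2 + N3 + N4 + 1, fun N hN z hz hzE b a ha => ?_⟩
  have hN1 : 1 ≤ N := by omega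
  have hNr : (1 : ℝ) ≤ N := by exact_mod_cast hN1
  have hN0 : (0 : ℝ) < N := by linarith
  have a2 := h2 N (by omega) z hz hzE
  have a3 := h3 N (by omega)
  have a4 := h4 N (by omega)
  obtain ⟨X, hX⟩ : ∃ X, X = N + b := ⟨_, rfl⟩
  have hNX : N ≤ X := by omega
  have hX1 : 1 ≤ X := by omega
  obtain ⟨L, hL⟩ : ∃ L, L = Real.log (N : ℝ) := ⟨_, rfl⟩
  have hlX : L ≤ Real.log X := by
    rw [hL]
    exact Real.log_le_log hN0 (by exact_mod_cast hNX)
  have a1 := h1 X (by omega) z hz (hzE.trans (by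
    rw [← hL]
    exact pow_le_pow_left₀ (by rw [hL]; exact Real.log_natCast_nonneg _) hlX _)) (fun i => a i - b)
  rw [singZ_GQ z a b] at a1
  rw [← hL] at a2 a3 a4 ha ⊢
  obtain ⟨s, hs⟩ : ∃ s, s = √(N : ℝ) := ⟨_, rfl⟩
  rw [← hs] at a4
  have hss : s * s = N := by rw [hs]; exact Real.mul_self_sqrt hN0.le
  have hs0 : 0 < s := by rw [hs]; exact Real.sqrt_pos.2 hN0
  have hL0 : 0 < L := by linarith
  have hL1 : 1 ≤ L := by linarith
  have hVz : 0 < (Vz z)⁻¹ := inv_pos.2 (Vz_pos z)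
  obtain ⟨V, hVd⟩ : ∃ V, V = (Vz z)⁻¹ ^ k := ⟨_, rfl⟩
  have hV : 0 < V := by rw [hVd]; positivity
  have hVL : V ≤ L ^ k := by rw [hVd]; exact pow_le_pow_left₀ hVz.le a2 k
  obtain ⟨g, hg⟩ : ∃ g, g = GQ z (Fin.cons (b : ℤ) a : Fin (k + 1) → ℤ) := ⟨_, rfl⟩
  have hgb := GQ_bounds z (Fin.cons (b : ℤ) a : Fin (k + 1) → ℤ)
  rw [← hg, ← hVd] at hgb
  obtain ⟨hg0, hgV⟩ := hgb
  rw [← hg] at a1 ⊢
  -- the powers of the logarithm
  have hEU : L ^ E * L ^ U * L ^ k * L ^ 4 = L ^ (E + U + k + 4) := by rw [pow_add, pow_add, pow_add]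
  have hLE : 1 ≤ L ^ E := one_le_pow₀ hL1
  have hLU : 1 ≤ L ^ U := one_le_pow₀ hL1
  have hLk : 1 ≤ L ^ k := one_le_pow₀ hL1
  have hL4 : 1 ≤ L ^ 4 := one_le_pow₀ hL1
  have b1 : 100 * (L ^ E * L ^ U * L ^ k * L ^ 4) ≤ s := by rw [hEU]; exact a4
  have hL1p : (1 : ℝ) ≤ L ^ U * L ^ k * L ^ 4 := one_le_mul_of_one_le_of_one_le (one_le_mul_of_one_le_of_one_le hLU hLk) hL4
  have hLEs : L ^ E ≤ s := by
    have h5 : L ^ E * 1 ≤ L ^ E * (L ^ U * L ^ k * L ^ 4) := mul_le_mul_of_nonneg_left hL1p (by positivity)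
    have h6 : 0 ≤ L ^ E * (L ^ U * L ^ k * L ^ 4) := by positivity
    have h7 : L ^ E * L ^ U * L ^ k * L ^ 4 = L ^ E * (L ^ U * L ^ k * L ^ 4) := by ring
    rw [h7] at b1
    linarith
  have hs1 : 1 ≤ s := hLE.trans hLEs
  have haN : (b : ℝ) ≤ N := by nlinarith
  have hX2 : (X : ℝ) ≤ 2 * N := by rw [hX]; push_cast; linarith
  have hlX2 : Real.log X ≤ 2 * L := by
    have h5 : Real.log X ≤ Real.log (2 * N) := Real.log_le_log (by exact_mod_cast hX1) hX2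
    rw [Real.log_mul (by norm_num) hN0.ne', ← hL] at h5
    have h6 : Real.log 2 ≤ 1 := by
      have := Real.log_two_lt_d9
      linarith
    linarith
  obtain ⟨ν, hν⟩ : ∃ ν : ℕ → ℝ, ν = fun n : ℕ => ∏ i, lz z ((n : ℤ) + (a i - b)) := ⟨_, rfl⟩
  have hν0 : ∀ n, 0 ≤ ν n := by intro n; rw [hν]; exact prod_nonneg fun i _ => lz_nonneg _ _
  have hν1 : ∀ n, ν n ≤ V := by
    intro n
    rw [hν]
    simp only
    rw [prod_lz z n (fun i => a i - b), hVd]
    split_ifs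
    · exact le_rfl
    · positivity
  have e2 : ∑ m ∈ Icc 1 N, tht (m + b) * ∏ i, lz z ((m : ℤ) + a i) = ∑ n ∈ Ioc b X, tht n * ν n := by
    rw [hX, ← shift_sum N b (fun n => tht n * ν n)]
    apply sum_congr rfl
    intro m _
    rw [hν]
    simp only
    congr 1
    apply prod_congr rfl
    intro i _
    congr 1
    push_cast
    ring
  have e3 := split_sum X b (by omega) (fun n => ArithmeticFunction.vonMangoldt n * ν n)
  have a1' : |∑ n ∈ Icc 1 X, ArithmeticFunction.vonMangoldt n * ν n - X * g| ≤ X / Real.log X ^ (U + 1) := by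
    rw [mul_comm (X : ℝ) g, hν]
    exact a1
  have f2 : 0 ≤ ∑ n ∈ Icc 1 b, ArithmeticFunction.vonMangoldt n * ν n ∧
      ∑ n ∈ Icc 1 b, ArithmeticFunction.vonMangoldt n * ν n ≤ b * (2 * L * V) := by
    refine ⟨sum_nonneg fun n _ => mul_nonneg ArithmeticFunction.vonMangoldt_nonneg (hν0 n), ?_⟩
    have : ∀ n ∈ Icc 1 b, ArithmeticFunction.vonMangoldt n * ν n ≤ 2 * L * V := by
      intro n hn
      rw [mem_Icc] at hn
      apply mul_le_mul _ (hν1 n) (hν0 n) (by positivity)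
      refine ArithmeticFunction.vonMangoldt_le_log.trans ((Real.log_le_log (by exact_mod_cast hn.1) ?_).trans hlX2)
      have : n ≤ X := by omega
      exact_mod_cast this
    refine (sum_le_sum this).trans ?_
    rw [sum_const, Nat.card_Icc, Nat.add_sub_cancel, nsmul_eq_mul]
  have f3 : 0 ≤ ∑ n ∈ Ioc b X, (ArithmeticFunction.vonMangoldt n - tht n) * ν n ∧
      ∑ n ∈ Ioc b X, (ArithmeticFunction.vonMangoldt n - tht n) * ν n ≤ V * (2 * √(X : ℝ) * Real.log X) := by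
    refine ⟨sum_nonneg fun n _ => mul_nonneg (by linarith [tht_le n]) (hν0 n), ?_⟩
    calc ∑ n ∈ Ioc b X, (ArithmeticFunction.vonMangoldt n - tht n) * ν n ≤
        ∑ n ∈ Ioc b X, V * (ArithmeticFunction.vonMangoldt n - tht n) := by
          apply sum_le_sum
          intro n _
          rw [mul_comm V]
          exact mul_le_mul_of_nonneg_left (hν1 n) (by linarith [tht_le n])
      _ ≤ ∑ n ∈ Icc 1 X, V * (ArithmeticFunction.vonMangoldt n - tht n) := by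
          apply sum_le_sum_of_subset_of_nonneg
          · intro n hn
            rw [mem_Ioc] at hn
            rw [mem_Icc]
            omega
          · intro n _ _
            exact mul_nonneg hV.le (by linarith [tht_le n])
      _ = V * ∑ n ∈ Icc 1 X, (ArithmeticFunction.vonMangoldt n - tht n) := by rw [mul_sum]
      _ ≤ _ := mul_le_mul_of_nonneg_left (diff_sum X hX1) hV.le
  have e5 : ∑ n ∈ Ioc b X, tht n * ν n - N * g =
      (∑ n ∈ Icc 1 X, ArithmeticFunction.vonMangoldt n * ν n - X * g)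
      + b * g - ∑ n ∈ Icc 1 b, ArithmeticFunction.vonMangoldt n * ν n -
      ∑ n ∈ Ioc b X, (ArithmeticFunction.vonMangoldt n - tht n) * ν n := by
    have h5 : ∑ n ∈ Ioc b X, (ArithmeticFunction.vonMangoldt n - tht n) * ν n =
        ∑ n ∈ Ioc b X, ArithmeticFunction.vonMangoldt n * ν n - ∑ n ∈ Ioc b X, tht n * ν n := by
      rw [← sum_sub_distrib]
      apply sum_congr rfl
      intro n _; ring
    rw [h5, e3, hX]
    push_cast
    ring
  rw [e2, e5]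
  have hsX : √(X : ℝ) ≤ 2 * s := by
    rw [hs]
    have : √(X : ℝ) ≤ √(4 * N) := Real.sqrt_le_sqrt (by linarith)
    rw [Real.sqrt_mul (by norm_num), show √(4 : ℝ) = 2 by
      rw [show (4 : ℝ) = 2 ^ 2 by norm_num, Real.sqrt_sq (by norm_num)]] at this
    exact this
  -- numerical bounds
  have g1 : (X : ℝ) / Real.log X ^ (U + 1) ≤ (1 / 4) * (N / L ^ U) := by
    calc (X : ℝ) / Real.log X ^ (U + 1) ≤ (2 * N) / L ^ (U + 1) := by gcongr
      _ = (2 / L) * (N / L ^ U) := by rw [pow_add]; field_simp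
      _ ≤ (1 / 4) * (N / L ^ U) := by
          apply mul_le_mul_of_nonneg_right _ (by positivity)
          rw [div_le_div_iff₀ hL0 (by norm_num)]
          linarith
  have key : ∀ y : ℝ, y ≤ 24 * (L ^ E * L ^ k * L ^ 4) * s → y ≤ (1 / 4) * (N / L ^ U) := by
    intro y hy
    refine hy.trans ?_
    rw [← hss, mul_div_assoc', le_div_iff₀ (by positivity)]
    have h5 := mul_le_mul_of_nonneg_right b1 hs0.le
    have h6 : 0 ≤ L ^ E * L ^ U * L ^ k * L ^ 4 * s := by positivity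
    nlinarith
  have hEk : 1 ≤ L ^ E * L ^ k := one_le_mul_of_one_le_of_one_le hLE hLk
  have g2 : (b : ℝ) * g ≤ (1 / 4) * (N / L ^ U) := by
    apply key
    calc (b : ℝ) * g ≤ L ^ E * L ^ k := mul_le_mul ha (hgV.trans hVL) hg0 (by positivity)
      _ ≤ 24 * (L ^ E * L ^ k * L ^ 4) * s := by
          have h5 : L ^ E * L ^ k * 1 ≤ L ^ E * L ^ k * L ^ 4 := mul_le_mul_of_nonneg_left hL4 (by positivity)
          have h7 : 0 ≤ L ^ E * L ^ k * L ^ 4 := by positivity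
          have h8 : L ^ E * L ^ k * L ^ 4 * 1 ≤ L ^ E * L ^ k * L ^ 4 * s := mul_le_mul_of_nonneg_left hs1 h7
          linarith
  have g3 : (b : ℝ) * (2 * L * V) ≤ (1 / 4) * (N / L ^ U) := by
    apply key
    calc (b : ℝ) * (2 * L * V) ≤ L ^ E * (2 * L * L ^ k) := by gcongr
      _ = 2 * (L ^ E * L ^ k * L) := by ring
      _ ≤ 24 * (L ^ E * L ^ k * L ^ 4) * s := by
          have h5 : L ≤ L ^ 4 := le_self_pow₀ hL1 (by norm_num)
          have h6 : L ^ E * L ^ k * L ≤ L ^ E * L ^ k * L ^ 4 := mul_le_mul_of_nonneg_left h5 (by positivity)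
          have h7 : 0 ≤ L ^ E * L ^ k * L ^ 4 := by positivity
          have h8 : L ^ E * L ^ k * L ^ 4 * 1 ≤ L ^ E * L ^ k * L ^ 4 * s := mul_le_mul_of_nonneg_left hs1 h7
          linarith
  have g4 : V * (2 * √(X : ℝ) * Real.log X) ≤ (1 / 4) * (N / L ^ U) := by
    apply key
    calc V * (2 * √(X : ℝ) * Real.log X) ≤ L ^ k * (2 * (2 * s) * (2 * L)) := by gcongr
      _ = 8 * (1 * L ^ k * L) * s := by ring
      _ ≤ 8 * (L ^ E * L ^ k * L ^ 4) * s := by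
          have h5 : L ≤ L ^ 4 := le_self_pow₀ hL1 (by norm_num)
          gcongr
      _ ≤ 24 * (L ^ E * L ^ k * L ^ 4) * s := by
          have h7 : 0 ≤ L ^ E * L ^ k * L ^ 4 * s := by positivity
          linarith
  have f1' := abs_le.1 (a1'.trans g1)
  have h5 : 0 ≤ (b : ℝ) * g := by positivity
  have h6 := f2.2.trans g3
  have h7 := f3.2.trans g4
  rw [abs_le]
  constructor <;> linarith [f1'.1, f1'.2, f2.1, f3.1]

end Pool.Agent.L7h72.KT
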