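import Mathlib
import Pool.Agent.L7h72.KT.Tup
import Pool.Agent.L7h72.KT.Stm

set_option autoImplicit false

/-! Moments of the sieve model and of the primes over a set of shifts. -/

namespace Pool.Agent.L7h72.KT

open Finset
open Pool.Agent.H373R2.T7
open Pool.Agent.L7h72.HW
open Pool.Agent.H387R2.Uni (nuT locT CT Adm)

/-- the sieve model summed over the shifts -/
noncomputable def Ys (z : ℕ) (A : Finset ℕ) (m : ℕ) : ℝ := ∑ a ∈ A, lz z ((m : ℤ) + (a : ℤ))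

/-- the primes summed over the shifts -/
noncomputable def Fs (A : Finset ℕ) (m : ℕ) : ℝ := ∑ a ∈ A, tht (m + a)

lemma Ys_nonneg (z : ℕ) (A : Finset ℕ) (m : ℕ) : 0 ≤ Ys z A m := sum_nonneg fun _ _ => lz_nonneg _ _

lemma Ys_pow (z : ℕ) (A : Finset ℕ) (m j : ℕ) :
    Ys z A m ^ j = ∑ x ∈ Fintype.piFinset (fun _ : Fin j => A), ∏ i, lz z ((m : ℤ) + (x i : ℤ)) := by
  have h := Finset.prod_univ_sum (fun _ : Fin j => A) (fun _ a => lz z ((m : ℤ) + (a : ℤ)))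
  rw [prod_const, card_univ, Fintype.card_fin] at h
  exact h

lemma two_sum (I : Finset ℕ) (A : Finset ℕ) (j : ℕ) (f : ℕ → ℕ → ℝ) (z : ℕ) :
    ∑ m ∈ I, (∑ a ∈ A, f m a) * Ys z A m ^ j =
      ∑ a ∈ A, ∑ x ∈ Fintype.piFinset (fun _ : Fin j => A), ∑ m ∈ I, f m a * ∏ i, lz z ((m : ℤ) + (x i : ℤ)) := by
  simp_rw [Ys_pow, sum_mul_sum]
  rw [sum_comm]
  apply sum_congr rfl
  intro a _
  rw [sum_comm]

theorem mom (j E U : ℕ) (hj : 1 ≤ j) : ∃ N0 : ℕ, ∀ N : ℕ, N0 ≤ N → ∀ z : ℕ, 1 ≤ z → (z : ℝ) ≤ Real.log N ^ E →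
    ∀ A : Finset ℕ, (∀ a ∈ A, (a : ℝ) ≤ Real.log N ^ E) →
    ∑ m ∈ Icc 1 N, Ys z A m ^ (j + 1) - (A.card : ℝ) ^ (j + 1) * (2 * (N / Real.log N ^ U)) ≤
      ∑ m ∈ Icc 1 N, Fs A m * Ys z A m ^ j := by
  obtain ⟨N1, h1⟩ := cnt j E U
  obtain ⟨N2, h2⟩ := lamt j E U hj
  refine ⟨N1 + N2, fun N hN z hz hzE A hA => ?_⟩
  have c1 := h1 N (by omega) z hz hzE
  have c2 := h2 N (by omega) z hz hzE
  obtain ⟨e, he⟩ : ∃ e, e = (N : ℝ) / Real.log N ^ U := ⟨_, rfl⟩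
  rw [← he] at c1 c2 ⊢
  have e1 : ∑ m ∈ Icc 1 N, Ys z A m ^ (j + 1) =
      ∑ a ∈ A, ∑ x ∈ Fintype.piFinset (fun _ : Fin j => A), ∑ m ∈ Icc 1 N,
        lz z ((m : ℤ) + (a : ℤ)) * ∏ i, lz z ((m : ℤ) + (x i : ℤ)) := by
    rw [← two_sum (Icc 1 N) A j (fun m a => lz z ((m : ℤ) + (a : ℤ))) z]
    apply sum_congr rfl
    intro m _
    rw [pow_succ, mul_comm]
    rfl
  have e2 : ∑ m ∈ Icc 1 N, Fs A m * Ys z A m ^ j =
      ∑ a ∈ A, ∑ x ∈ Fintype.piFinset (fun _ : Fin j => A), ∑ m ∈ Icc 1 N,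
        tht (m + a) * ∏ i, lz z ((m : ℤ) + (x i : ℤ)) := two_sum (Icc 1 N) A j (fun m a => tht (m + a)) z
  rw [e1, e2]
  have e3 : (A.card : ℝ) ^ (j + 1) * (2 * e) =
      ∑ a ∈ A, ∑ x ∈ Fintype.piFinset (fun _ : Fin j => A), 2 * e := by
    rw [sum_const, sum_const, Fintype.card_piFinset, prod_const, card_univ, Fintype.card_fin, nsmul_eq_mul,
      nsmul_eq_mul]
    push_cast
    ring
  rw [e3, ← sum_sub_distrib]
  apply sum_le_sum
  intro a ha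
  rw [← sum_sub_distrib]
  apply sum_le_sum
  intro x _
  have g1 := c1 (Fin.cons (a : ℤ) (fun i => (x i : ℤ)) : Fin (j + 1) → ℤ)
  have g2 := c2 a (fun i => (x i : ℤ)) (hA a ha)
  have e4 : ∑ m ∈ Icc 1 N, ∏ i, lz z ((m : ℤ) + (Fin.cons (a : ℤ) (fun i => (x i : ℤ)) : Fin (j + 1) → ℤ) i) =
      ∑ m ∈ Icc 1 N, lz z ((m : ℤ) + (a : ℤ)) * ∏ i, lz z ((m : ℤ) + (x i : ℤ)) := by
    apply sum_congr rfl
    intro m _
    rw [Fin.prod_univ_succ]
    simp only [Fin.cons_zero, Fin.cons_succ]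
  rw [e4] at g1
  have g1' := (abs_le.1 g1).2
  have g2' := (abs_le.1 g2).1
  linarith

lemma lz_cast (z m a : ℕ) : lz z ((m : ℤ) + (a : ℤ)) = lamz z (m + a) := by
  unfold lz lamz
  have : (m : ℤ) + (a : ℤ) = ((m + a : ℕ) : ℤ) := by push_cast; ring
  rw [this]
  simp only [Int.natCast_dvd_natCast]

lemma tangent {u y : ℝ} (hu : 0 ≤ u) (hy : 0 ≤ y) (j : ℕ) (hj : 1 ≤ j) :
    ((j : ℝ) + 1) * (u * y ^ j) ≤ u ^ (j + 1) + j * y ^ (j + 1) := by
  rcases hy.eq_or_lt with h0 | hy0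
  · rw [← h0, zero_pow (by omega), zero_pow (by omega)]
    have : 0 ≤ u ^ (j + 1) := by positivity
    linarith
  · have h1 : -2 ≤ u / y - 1 := by
      have : 0 ≤ u / y := by positivity
      linarith
    have h2 := one_add_mul_le_pow h1 (j + 1)
    have h3 : (1 + (u / y - 1)) ^ (j + 1) = u ^ (j + 1) / y ^ (j + 1) := by
      rw [← div_pow]; congr 1; ring
    rw [h3, le_div_iff₀ (by positivity)] at h2
    push_cast at h2
    have h4 : (1 + ((j : ℝ) + 1) * (u / y - 1)) * y ^ (j + 1) = ((j : ℝ) + 1) * (u * y ^ j) - j * y ^ (j + 1) := by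
      rw [pow_succ]
      field_simp
      ring
    rw [h4] at h2
    linarith

/-- the number of shifts with the property -/
lemma mixed {u y : ℝ} (hu : 0 ≤ u) (hy : 0 ≤ y) (j : ℕ) : u ^ j * y ≤ u ^ (j + 1) + y ^ (j + 1) := by
  rcases le_total u y with h | h
  · have h1 : u ^ j * y ≤ y ^ j * y := mul_le_mul_of_nonneg_right (pow_le_pow_left₀ hu h j) hy
    have h2 : 0 ≤ u ^ (j + 1) := by positivity
    rw [← pow_succ] at h1
    linarith
  · have h1 : u ^ j * y ≤ u ^ j * u := mul_le_mul_of_nonneg_left h (by positivity)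
    have h2 : 0 ≤ y ^ (j + 1) := by positivity
    rw [← pow_succ] at h1
    linarith

open Classical in
/-- the truncated singular series of a set, by an enumeration -/
theorem cntD (k E U : ℕ) : ∃ N0 : ℕ, ∀ N : ℕ, N0 ≤ N → ∀ z : ℕ, 1 ≤ z → (z : ℝ) ≤ Real.log N ^ E →
    ∀ D : Finset ℕ, D.card = k + 1 →
    N * GT z D - N / Real.log N ^ U ≤
      (Vz z)⁻¹ ^ (k + 1) * (((Icc 1 N).filter (fun m => ∀ d ∈ D, ∀ p ∈ pz z, ¬ p ∣ m + d)).card : ℝ) := by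
  obtain ⟨N1, h1⟩ := cnt k E U
  refine ⟨N1, fun N hN z hz hzE D hD => ?_⟩
  obtain ⟨a, ha⟩ : ∃ a : Fin (k + 1) → ℕ, univ.image a = D := by
    refine ⟨fun i => D.orderEmbOfFin hD i, ?_⟩
    rw [← coe_inj, coe_image, coe_univ, Set.image_univ]
    exact range_orderEmbOfFin D hD
  have g1 := (abs_le.1 (h1 N hN z hz hzE (fun i => (a i : ℤ)))).1
  have e1 : ∑ m ∈ Icc 1 N, ∏ i, lz z ((m : ℤ) + (a i : ℤ)) =
      (Vz z)⁻¹ ^ (k + 1) * (((Icc 1 N).filter (fun m => ∀ d ∈ D, ∀ p ∈ pz z, ¬ p ∣ m + d)).card : ℝ) := by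
    rw [card_filter, Nat.cast_sum, mul_sum]
    apply sum_congr rfl
    intro m _
    rw [prod_lz z m (fun i => (a i : ℤ))]
    have hiff : (∀ p ∈ pz z, ¬ Qt (fun i => (a i : ℤ)) p m) ↔ ∀ d ∈ D, ∀ p ∈ pz z, ¬ p ∣ m + d := by
      rw [← ha]
      constructor
      · intro h d hd p hp hdv
        rw [mem_image] at hd
        obtain ⟨i, _, rfl⟩ := hd
        refine h p hp ⟨i, ?_⟩
        change (p : ℤ) ∣ (m : ℤ) + (a i : ℤ)
        exact_mod_cast hdv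
      · rintro h p hp ⟨i, hi⟩
        refine h (a i) (mem_image_of_mem _ (mem_univ _)) p hp ?_
        have hi' : (p : ℤ) ∣ (m : ℤ) + (a i : ℤ) := hi
        exact_mod_cast hi'
    by_cases h : ∀ d ∈ D, ∀ p ∈ pz z, ¬ p ∣ m + d
    · rw [if_pos (hiff.2 h), if_pos h]; simp
    · rw [if_neg (fun h' => h (hiff.1 h')), if_neg h]; simp
  have e2 : GQ z (fun i => (a i : ℤ)) = GT z D := by
    unfold GQ GT Vz
    rw [← prod_inv_distrib, ← prod_pow, ← prod_mul_distrib]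
    apply prod_congr rfl
    intro p hp
    have hpp := (mem_pz.1 hp).2
    unfold locT
    rw [hD]
    have hnu : nuB (Qt (fun i => (a i : ℤ))) p = nuT D p := by
      rw [nuB_Qt hpp.pos]
      unfold nuT
      rw [← ha, image_image]
      have key : ∀ i j, cls p (a i : ℤ) = cls p (a j : ℤ) ↔ ((· % p) ∘ a) i = ((· % p) ∘ a) j := by
        intro i j
        rw [cls_eq_iff hpp.pos]
        simp only [Function.comp]
        have : (p : ℤ) ∣ (a j : ℤ) - (a i : ℤ) ↔ a i ≡ a j [MOD p] := by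
          rw [Nat.modEq_iff_dvd]
        rw [this]
        rfl
      apply le_antisymm
      · exact ker_le _ _ fun i j h => (key i j).2 h
      · exact ker_le _ _ fun i j h => (key i j).1 h
    rw [hnu, inv_pow, inv_mul_eq_div]
  rw [e1, e2] at g1
  linarith

end Pool.Agent.L7h72.KT
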