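import Mathlib
import Pool.Agent.L7h72.KT.Stm

set_option autoImplicit false

/-!
# Project KT: the average over the subsets of a sparse set, and the final statement
-/

namespace Pool.Agent.L7h72.KT

open Finset
open Pool.Agent.H387R2.Uni (nuT locT CT Adm)

/-- [AVG] the average over the subsets -/
def S_AVG : Prop := ∀ k : ℕ, 2 ≤ k → ∀ B U : ℕ, ∃ X : ℝ, ∀ x : ℝ, X ≤ x → ∀ δ : ℝ, 0 < δ → 1 ≤ δ * Real.log x ^ U → δ ≤ 1 →
  ∀ A : Finset ℕ, (∀ a ∈ A, (a : ℝ) ≤ Real.log x ^ B) → 32 * (k : ℝ) ^ 2 * Real.log x ≤ δ * A.card →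
    (1 - δ) * x * ∑ D ∈ A.powersetCard k, CT D ≤ Real.log x ^ k * ∑ D ∈ A.powersetCard k, (tc x D : ℝ) ∧
    x * (A.card : ℝ) ^ k ≤ 8 * k.factorial * (Real.log x ^ k * ∑ D ∈ A.powersetCard k, (tc x D : ℝ))

open Classical in
/-- [FIN] the final statement: the average, the size of the singular series on average, and the weight of the good sets -/
def S_FIN : Prop := ∀ k : ℕ, 2 ≤ k → ∃ c : ℝ, 0 < c ∧ ∀ B U : ℕ, ∃ X : ℝ, ∀ x : ℝ, X ≤ x → ∀ δ : ℝ, 0 < δ →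
  1 ≤ δ * Real.log x ^ U → δ ≤ 1 →
  ∀ A : Finset ℕ, (∀ a ∈ A, (a : ℝ) ≤ Real.log x ^ B) → Real.log x ≤ c * δ * A.card →
    (1 - δ) * x * ∑ D ∈ A.powersetCard k, CT D ≤ Real.log x ^ k * ∑ D ∈ A.powersetCard k, (tc x D : ℝ) ∧
    c * (A.card : ℝ) ^ k ≤ ∑ D ∈ A.powersetCard k, CT D ∧
    c * δ * ∑ D ∈ A.powersetCard k, CT D ≤
      ∑ D ∈ (A.powersetCard k).filter
        (fun D => 0 < CT D ∧ (1 - δ) * (CT D * x) ≤ Real.log x ^ k * (tc x D : ℝ)), CT D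

end Pool.Agent.L7h72.KT
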