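import Mathlib
import Pool.Agent.L7h72.KT.Mom
import Pool.Agent.L7h72.KT.Stm2
import Pool.Agent.H387R2.U2

set_option autoImplicit false

/-! The average of the prime tuple counts over the subsets of a sparse set of shifts. -/

namespace Pool.Agent.L7h72.KT

open Finset Filter
open Pool.Agent.H373R2.T7
open Pool.Agent.L7h72.HW
open Pool.Agent.H387R2.Uni (nuT locT CT Adm)

lemma moments (hF : S_FAC) (I : Finset ℕ) (Y : ℕ → ℝ) (n : ℕ → ℕ) (j : ℕ) (hj : 1 ≤ j) (a l η δ N : ℝ)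
    (hN : N = I.card) (ha : 0 ≤ a) (hl : 0 < l) (hη : 0 ≤ η) (hδ : δ ≤ 1) (hηδ : 64 * ((j : ℝ) + 1) * η ≤ δ)
    (hal : 32 * ((j : ℝ) + 1) ^ 2 * l ≤ δ * a) (hY : ∀ m, 0 ≤ Y m)
    (h1 : a * (N - N * η) ≤ ∑ m ∈ I, Y m)
    (h2 : ∑ m ∈ I, Y m ^ (j + 1) - a ^ (j + 1) * (2 * (N * η)) ≤ ∑ m ∈ I, l * n m * Y m ^ j) :
    N * a ^ (j + 1) ≤ 2 * ∑ m ∈ I, Y m ^ (j + 1) ∧
    (1 - δ / 4) * ∑ m ∈ I, Y m ^ (j + 1) ≤
      ((j + 1).factorial : ℝ) * (l ^ (j + 1) * ∑ m ∈ I, ((n m).choose (j + 1) : ℝ)) := by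
  have hj0 : (0 : ℝ) ≤ j := Nat.cast_nonneg _
  have hN0 : 0 ≤ N := by rw [hN]; exact Nat.cast_nonneg _
  obtain ⟨S, hS⟩ : ∃ S, S = ∑ m ∈ I, Y m ^ (j + 1) := ⟨_, rfl⟩
  have hS0 : 0 ≤ S := by rw [hS]; exact sum_nonneg fun m _ => pow_nonneg (hY m) _
  obtain ⟨K, hK⟩ : ∃ K : ℝ, K = (j : ℝ) + 1 := ⟨_, rfl⟩
  have hK2 : 2 ≤ K := by
    rw [hK]
    have : (1 : ℝ) ≤ j := by exact_mod_cast hj
    linarith
  rw [← hK] at hηδ hal
  have hδ0 : 0 ≤ δ := by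
    refine le_trans ?_ hηδ
    positivity
  obtain ⟨P, hP⟩ : ∃ P, P = a ^ (j + 1) := ⟨_, rfl⟩
  have hP0 : 0 ≤ P := by rw [hP]; positivity
  rw [← hS, ← hP] at h2
  rw [← hS, ← hP]
  -- the size of the sieve moment
  have s1 : K * (a ^ j * ∑ m ∈ I, Y m) ≤ S + j * (N * P) := by
    have h : ∑ m ∈ I, ((j : ℝ) + 1) * (Y m * a ^ j) ≤ ∑ m ∈ I, (Y m ^ (j + 1) + j * a ^ (j + 1)) :=
      sum_le_sum fun m _ => tangent (hY m) ha j hj
    rw [sum_add_distrib, sum_const, nsmul_eq_mul, ← hN, ← hS, ← mul_sum, ← sum_mul, ← hK, ← hP] at h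
    linarith
  have s2 : N * P * (1 - η) ≤ a ^ j * ∑ m ∈ I, Y m := by
    have h := mul_le_mul_of_nonneg_left h1 (pow_nonneg ha j)
    refine le_trans (le_of_eq ?_) h
    rw [hP, pow_succ]
    ring
  have hNP : 0 ≤ N * P := mul_nonneg hN0 hP0
  have hKη' : K * η ≤ δ / 64 := by linarith
  have s3 : N * P * (1 - K * η) ≤ S := by
    have h := mul_le_mul_of_nonneg_left s2 (by linarith : 0 ≤ K)
    have e : K * (N * P * (1 - η)) = N * P * (1 - K * η) + j * (N * P) := by rw [hK]; ring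
    linarith
  have s4 : N * P ≤ 2 * S := by
    have h := mul_le_mul_of_nonneg_left (show K * η ≤ 1 / 64 by linarith) hNP
    linarith
  obtain ⟨T, hT⟩ : ∃ T, T = ∑ m ∈ I, (l * (n m : ℝ)) ^ (j + 1) := ⟨_, rfl⟩
  obtain ⟨T', hT'⟩ : ∃ T', T' = ∑ m ∈ I, (l * (n m : ℝ)) ^ j := ⟨_, rfl⟩
  have hu : ∀ m, 0 ≤ l * (n m : ℝ) := fun m => by positivity
  have hT0 : 0 ≤ T := by rw [hT]; exact sum_nonneg fun m _ => pow_nonneg (hu m) _
  have hT'0 : 0 ≤ T' := by rw [hT']; exact sum_nonneg fun m _ => pow_nonneg (hu m) _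
  have s5 : K * ∑ m ∈ I, l * (n m : ℝ) * Y m ^ j ≤ T + j * S := by
    have h : ∑ m ∈ I, ((j : ℝ) + 1) * (l * n m * Y m ^ j) ≤ ∑ m ∈ I, ((l * n m) ^ (j + 1) + j * Y m ^ (j + 1)) :=
      sum_le_sum fun m _ => tangent (hu m) (hY m) j hj
    rw [sum_add_distrib, ← mul_sum, ← mul_sum, ← hS, ← hT, ← hK] at h
    exact h
  have s6 : (1 - δ / 16) * S ≤ T := by
    have h := mul_le_mul_of_nonneg_left h2 (by linarith : 0 ≤ K)
    have q1 : K * η * (N * P) ≤ δ / 64 * (2 * S) := mul_le_mul hKη' s4 hNP (by positivity)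
    have e : K * (S - P * (2 * (N * η))) = S + j * S - 2 * (K * η * (N * P)) := by rw [hK]; ring
    linarith
  have s7 : a * T' ≤ T + N * P := by
    have h : ∑ m ∈ I, (l * (n m : ℝ)) ^ j * a ≤ ∑ m ∈ I, ((l * (n m : ℝ)) ^ (j + 1) + a ^ (j + 1)) :=
      sum_le_sum fun m _ => mixed (hu m) ha j
    rw [sum_add_distrib, sum_const, nsmul_eq_mul, ← sum_mul, ← hT', ← hT, ← hN, ← hP] at h
    linarith
  have s8 : T - K ^ 2 * l * T' ≤ ((j + 1).factorial : ℝ) * (l ^ (j + 1) * ∑ m ∈ I, ((n m).choose (j + 1) : ℝ)) := by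
    have h : ∑ m ∈ I, ((l * (n m : ℝ)) ^ (j + 1) - K ^ 2 * l * (l * (n m : ℝ)) ^ j) ≤
        ∑ m ∈ I, ((j + 1).factorial : ℝ) * (l ^ (j + 1) * ((n m).choose (j + 1) : ℝ)) := by
      apply sum_le_sum
      intro m _
      have h := (hF (n m) (j + 1) (by omega)).2
      rw [Nat.add_sub_cancel] at h
      have h' := mul_le_mul_of_nonneg_left h (by positivity : 0 ≤ l ^ (j + 1))
      push_cast at h'
      rw [hK]
      calc (l * (n m : ℝ)) ^ (j + 1) - ((j : ℝ) + 1) ^ 2 * l * (l * (n m : ℝ)) ^ j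
          = l ^ (j + 1) * ((n m : ℝ) ^ (j + 1) - ((j : ℝ) + 1) ^ 2 * (n m : ℝ) ^ j) := by
            rw [mul_pow, mul_pow, pow_succ l]; ring
        _ ≤ _ := h'
        _ = _ := by ring
    rw [sum_sub_distrib, ← mul_sum, ← mul_sum, ← mul_sum, ← hT, ← hT'] at h
    exact h
  refine ⟨s4, le_trans ?_ s8⟩
  have s9 : K ^ 2 * l * T' ≤ δ / 32 * (T + 2 * S) := by
    have g1 : 32 * K ^ 2 * l * T' ≤ δ * a * T' := mul_le_mul_of_nonneg_right hal hT'0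
    have g2 : δ * (a * T') ≤ δ * (T + N * P) := mul_le_mul_of_nonneg_left s7 hδ0
    have g3 : δ * (N * P) ≤ δ * (2 * S) := mul_le_mul_of_nonneg_left s4 hδ0
    linarith
  have s10 : (1 - δ / 32) * ((1 - δ / 16) * S) ≤ (1 - δ / 32) * T := mul_le_mul_of_nonneg_left s6 (by linarith)
  have s11 : 0 ≤ δ * S := mul_nonneg hδ0 hS0
  have s12 : 0 ≤ δ * (δ * S) := mul_nonneg hδ0 s11
  linarith

open Classical in
lemma ser_le (hB : S_BIN) (hF : S_FAC) (hS : S_SER) (j H z N : ℕ) (hHz : H < z) (e : ℝ) (he : 0 ≤ e)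
    (A : Finset ℕ) (hA : ∀ a ∈ A, a ≤ H)
    (h : ∀ D : Finset ℕ, D.card = j + 1 → N * GT z D - e ≤
      (Vz z)⁻¹ ^ (j + 1) * (((Icc 1 N).filter (fun m => ∀ d ∈ D, ∀ p ∈ pz z, ¬ p ∣ m + d)).card : ℝ)) :
    ((j + 1).factorial : ℝ) * (N * ∑ D ∈ A.powersetCard (j + 1), CT D) ≤
      ∑ m ∈ Icc 1 N, Ys z A m ^ (j + 1) + (A.card : ℝ) ^ (j + 1) * e := by
  have hV : 0 < (Vz z)⁻¹ := inv_pos.2 (Vz_pos z)
  have e1 : ∀ m, Ys z A m = (Vz z)⁻¹ * ((A.filter (fun a => ∀ p ∈ pz z, ¬ p ∣ m + a)).card : ℝ) := by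
    intro m
    unfold Ys
    rw [card_filter, Nat.cast_sum, mul_sum]
    apply sum_congr rfl
    intro a _
    rw [lz_cast]
    unfold lamz
    split_ifs <;> simp
  have e2 : ∑ D ∈ A.powersetCard (j + 1),
      (((Icc 1 N).filter (fun m => ∀ d ∈ D, ∀ p ∈ pz z, ¬ p ∣ m + d)).card : ℝ) =
      ∑ m ∈ Icc 1 N, ((((A.filter (fun a => ∀ p ∈ pz z, ¬ p ∣ m + a)).card).choose (j + 1) : ℕ) : ℝ) := by
    have := hB (fun n => ∀ p ∈ pz z, ¬ p ∣ n) (Icc 1 N) A (j + 1)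
    exact_mod_cast this
  have e3 : ((j + 1).factorial : ℝ) * ((Vz z)⁻¹ ^ (j + 1) *
      ∑ m ∈ Icc 1 N, ((((A.filter (fun a => ∀ p ∈ pz z, ¬ p ∣ m + a)).card).choose (j + 1) : ℕ) : ℝ)) ≤
      ∑ m ∈ Icc 1 N, Ys z A m ^ (j + 1) := by
    rw [mul_sum, mul_sum]
    apply sum_le_sum
    intro m _
    rw [e1 m, mul_pow]
    have h4 := (hF ((A.filter (fun a => ∀ p ∈ pz z, ¬ p ∣ m + a)).card) (j + 1) (by omega)).1
    have h5 := mul_le_mul_of_nonneg_left h4 (pow_nonneg hV.le (j + 1))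
    linarith
  have e4 : N * ∑ D ∈ A.powersetCard (j + 1), CT D ≤
      (Vz z)⁻¹ ^ (j + 1) * (∑ D ∈ A.powersetCard (j + 1),
      (((Icc 1 N).filter (fun m => ∀ d ∈ D, ∀ p ∈ pz z, ¬ p ∣ m + d)).card : ℝ)) +
      (A.card.choose (j + 1) : ℝ) * e := by
    have e5 : (A.card.choose (j + 1) : ℝ) * e = ∑ D ∈ A.powersetCard (j + 1), e := by
      rw [sum_const, card_powersetCard, nsmul_eq_mul]
    rw [e5, mul_sum, mul_sum, ← sum_add_distrib]
    apply sum_le_sum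
    intro D hD
    rw [mem_powersetCard] at hD
    have h6 := h D hD.2
    have h7 := mul_le_mul_of_nonneg_left (hS D H z (fun d hd => hA d (hD.1 hd)) hHz) (Nat.cast_nonneg (α := ℝ) N)
    linarith
  have e6 : ((j + 1).factorial : ℝ) * ((A.card.choose (j + 1) : ℝ) * e) ≤ (A.card : ℝ) ^ (j + 1) * e := by
    rw [← mul_assoc]
    exact mul_le_mul_of_nonneg_right (hF A.card (j + 1) (by omega)).1 he
  rw [e2] at e4
  have e7 := mul_le_mul_of_nonneg_left e4 (Nat.cast_nonneg (α := ℝ) (j + 1).factorial)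
  rw [mul_add] at e7
  linarith

lemma tc_ge (hB : S_BIN) (x : ℝ) (N k : ℕ) (hx : N ≤ ⌊x⌋₊) (A : Finset ℕ) :
    ∑ m ∈ Icc 1 N, ((((A.filter (fun a => (m + a).Prime)).card).choose k : ℕ) : ℝ) ≤
      ∑ D ∈ A.powersetCard k, (tc x D : ℝ) := by
  have h1 := hB Nat.Prime (Icc 1 N) A k
  have h2 : ∑ m ∈ Icc 1 N, ((((A.filter (fun a => (m + a).Prime)).card).choose k : ℕ) : ℝ) =
      ∑ D ∈ A.powersetCard k, (((Icc 1 N).filter (fun m => ∀ d ∈ D, (m + d).Prime)).card : ℝ) := by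
    exact_mod_cast h1.symm
  rw [h2]
  apply sum_le_sum
  intro D _
  unfold tc
  exact_mod_cast card_le_card (filter_subset_filter _ (Icc_subset_Icc le_rfl hx))

lemma Fs_le (x : ℝ) (hx : 1 ≤ x) (N H : ℕ) (hNH : N + H ≤ ⌊x⌋₊) (A : Finset ℕ) (hA : ∀ a ∈ A, a ≤ H) (m : ℕ)
    (hm : m ∈ Icc 1 N) : Fs A m ≤ Real.log x * ((A.filter (fun a => (m + a).Prime)).card : ℝ) := by
  unfold Fs
  rw [card_filter, Nat.cast_sum, mul_sum]
  apply sum_le_sum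
  intro a ha
  rw [mem_Icc] at hm
  have haH := hA a ha
  by_cases h : (m + a).Prime
  · rw [if_pos h, Nat.cast_one, mul_one]
    refine (tht_le_log _).trans ?_
    apply Real.log_le_log (by exact_mod_cast (by omega : 0 < m + a))
    refine le_trans ?_ (Nat.floor_le (by linarith : (0 : ℝ) ≤ x))
    exact_mod_cast (by omega : m + a ≤ ⌊x⌋₊)
  · rw [if_neg h]
    unfold tht
    rw [if_neg h]
    simp

theorem s_AVG (hB : S_BIN) (hF : S_FAC) (hSer : S_SER) : S_AVG := by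
  intro k hk B U
  obtain ⟨j, rfl⟩ : ∃ j, k = j + 1 := ⟨k - 1, by omega⟩
  have hj : 1 ≤ j := by omega
  obtain ⟨N1, h1⟩ := mom j (B + 2) (U + 1) hj
  obtain ⟨N2, h2⟩ := cntD j (B + 2) (U + 1)
  obtain ⟨N3, h3⟩ := one (B + 2) (U + 1)
  obtain ⟨K, hK⟩ : ∃ K : ℝ, K = (j : ℝ) + 1 := ⟨_, rfl⟩
  have hK2 : 2 ≤ K := by
    rw [hK]
    have : (1 : ℝ) ≤ j := by exact_mod_cast hj
    linarith
  have t1 := Real.tendsto_log_atTop.eventually_ge_atTop (64 * K * 2 ^ (U + B + 4) + 16)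
  have t2 := (Real.isLittleO_pow_log_id_atTop (n := U + B + 2)).bound (show (0 : ℝ) < 1 / 4 by norm_num)
  have t3 := eventually_ge_atTop (2 * ((N1 : ℝ) + N2 + N3) + 16)
  obtain ⟨X, hX⟩ := eventually_atTop.1 (t1.and (t2.and t3))
  refine ⟨X, fun x hx δ hδ0 hδU hδ1 A hA hAc => ?_⟩
  obtain ⟨u1, u2, u3⟩ := hX x hx
  have hn1 : (0 : ℝ) ≤ N1 := Nat.cast_nonneg _
  have hn2 : (0 : ℝ) ≤ N2 := Nat.cast_nonneg _
  have hn3 : (0 : ℝ) ≤ N3 := Nat.cast_nonneg _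
  have hx16 : 16 ≤ x := by linarith
  have hx0 : 0 < x := by linarith
  obtain ⟨l, hl⟩ : ∃ l, l = Real.log x := ⟨_, rfl⟩
  rw [← hl] at u1 u2 hδU hA hAc ⊢
  push_cast at hAc
  rw [← hK] at hAc
  have hpow : (1 : ℝ) ≤ 2 ^ (U + B + 4) := one_le_pow₀ (by norm_num)
  have hpow2 : (2 : ℝ) ^ (U + B + 4) ≤ 64 * K * 2 ^ (U + B + 4) := by
    apply le_mul_of_one_le_left (by positivity)
    linarith
  have hl16 : 16 ≤ l := by linarith
  have hl0 : 0 < l := by linarith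
  have hl1 : 1 ≤ l := by linarith
  rw [Real.norm_eq_abs, Real.norm_eq_abs, abs_of_nonneg (by positivity), id, abs_of_pos hx0] at u2
  have hlB : 1 ≤ l ^ B := one_le_pow₀ hl1
  have hl2 : 256 ≤ l ^ 2 := by nlinarith
  obtain ⟨H, hH⟩ : ∃ H, H = ⌊l ^ B⌋₊ := ⟨_, rfl⟩
  have hHl : (H : ℝ) ≤ l ^ B := by rw [hH]; exact Nat.floor_le (by positivity)
  have hAH : ∀ a ∈ A, a ≤ H := fun a ha => by rw [hH]; exact Nat.le_floor (hA a ha)
  have hHδ : 8 * ((H : ℝ) + 2) ≤ δ * x := by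
    have g0 : l ^ (U + B + 2) = l ^ U * l ^ B * l ^ 2 := by rw [pow_add, pow_add]
    have g1 : δ * l ^ (U + B + 2) ≤ δ * x := mul_le_mul_of_nonneg_left (by linarith) hδ0.le
    have g2 : 1 * (l ^ B * l ^ 2) ≤ δ * l ^ U * (l ^ B * l ^ 2) := mul_le_mul_of_nonneg_right hδU (by positivity)
    have g3 : l ^ B * 256 ≤ l ^ B * l ^ 2 := mul_le_mul_of_nonneg_left hl2 (by positivity)
    rw [g0] at g1
    linarith
  have hHx : 8 * ((H : ℝ) + 2) ≤ x := by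
    have : δ * x ≤ 1 * x := mul_le_mul_of_nonneg_right hδ1 hx0.le
    linarith
  have hfl : x - 1 < ⌊x⌋₊ := Nat.sub_one_lt_floor x
  have hfl2 : (⌊x⌋₊ : ℝ) ≤ x := Nat.floor_le hx0.le
  have hHf : H ≤ ⌊x⌋₊ := by
    have : (H : ℝ) ≤ ⌊x⌋₊ := by linarith
    exact_mod_cast this
  obtain ⟨N, hN⟩ : ∃ N, N = ⌊x⌋₊ - H := ⟨_, rfl⟩
  have hNH : N + H = ⌊x⌋₊ := by omega
  have hNr : (N : ℝ) = ⌊x⌋₊ - H := by rw [hN, Nat.cast_sub hHf]
  have hNx : (N : ℝ) ≤ x := by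
    have : (0 : ℝ) ≤ H := Nat.cast_nonneg _
    linarith
  have hNlow : x - (H + 2) ≤ N := by linarith
  have hN2 : x / 2 ≤ N := by linarith
  have hN0 : (0 : ℝ) < N := by linarith
  have hN1' : N1 ≤ N := by
    have : (N1 : ℝ) ≤ N := by linarith
    exact_mod_cast this
  have hN2' : N2 ≤ N := by
    have : (N2 : ℝ) ≤ N := by linarith
    exact_mod_cast this
  have hN3' : N3 ≤ N := by
    have : (N3 : ℝ) ≤ N := by linarith
    exact_mod_cast this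
  obtain ⟨L, hL⟩ : ∃ L, L = Real.log (N : ℝ) := ⟨_, rfl⟩
  have hlL : l / 2 ≤ L := by
    have h5 : √x ≤ N := by
      refine le_trans ?_ hN2
      rw [Real.sqrt_le_left (by linarith)]
      nlinarith
    have h6 : Real.log (√x) ≤ L := by rw [hL]; exact Real.log_le_log (Real.sqrt_pos.2 hx0) h5
    rw [Real.log_sqrt hx0.le, ← hl] at h6
    exact h6
  have hL8 : 8 ≤ L := by linarith
  have hL0 : 0 < L := by linarith
  have hz : ((H + 2 : ℕ) : ℝ) ≤ L ^ (B + 2) := by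
    push_cast
    calc (H : ℝ) + 2 ≤ 3 * l ^ B := by linarith
      _ ≤ (l / 2) ^ (B + 2) := by
          rw [div_pow, le_div_iff₀ (by positivity), pow_add l B 2]
          have h6 : 3 * (2 : ℝ) ^ (B + 2) ≤ l ^ 2 := by
            have h7 : (2 : ℝ) ^ (B + 2) ≤ 2 ^ (U + B + 4) := pow_le_pow_right₀ (by norm_num) (by omega)
            have h8 : 16 * l ≤ l ^ 2 := by
              rw [sq]
              exact mul_le_mul_of_nonneg_right hl16 hl0.le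
            linarith
          have h8 : 0 ≤ l ^ B := by positivity
          have h9 := mul_le_mul_of_nonneg_left h6 h8
          linarith
      _ ≤ L ^ (B + 2) := pow_le_pow_left₀ (by positivity) hlL _
  have hHL : (H : ℝ) ≤ L ^ (B + 2) := by
    refine le_trans ?_ hz
    push_cast
    linarith
  obtain ⟨η, hη⟩ : ∃ η, η = 1 / L ^ (U + 1) := ⟨_, rfl⟩
  have hη0 : 0 ≤ η := by rw [hη]; positivity
  have hNη : (N : ℝ) / L ^ (U + 1) = N * η := by rw [hη]; ring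
  have hηδ : 64 * K * η ≤ δ := by
    rw [hη, mul_one_div, div_le_iff₀ (by positivity)]
    have g1 : δ * (l / 2) ^ (U + 1) ≤ δ * L ^ (U + 1) :=
      mul_le_mul_of_nonneg_left (pow_le_pow_left₀ (by positivity) hlL _) hδ0.le
    refine le_trans ?_ g1
    have g2 : δ * (l / 2) ^ (U + 1) = δ * l ^ U * l / 2 ^ (U + 1) := by rw [div_pow, pow_succ l]; ring
    rw [g2, le_div_iff₀ (by positivity)]
    have g3 : 1 * l ≤ δ * l ^ U * l := mul_le_mul_of_nonneg_right hδU hl0.le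
    have g4 : (2 : ℝ) ^ (U + 1) ≤ 2 ^ (U + B + 4) := pow_le_pow_right₀ (by norm_num) (by omega)
    have g5 : 64 * K * (2 : ℝ) ^ (U + 1) ≤ 64 * K * 2 ^ (U + B + 4) := mul_le_mul_of_nonneg_left g4 (by linarith)
    linarith
  have hAL : ∀ a ∈ A, (a : ℝ) ≤ L ^ (B + 2) := by
    intro a ha
    refine le_trans ?_ hHL
    exact_mod_cast hAH a ha
  have c1 := h1 N hN1' (H + 2) (by omega) (by rw [← hL]; exact hz) A (by rw [← hL]; exact hAL)
  have c2 := h2 N hN2' (H + 2) (by omega) (by rw [← hL]; exact hz)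
  have c3 := h3 N hN3' (H + 2) (by omega) (by rw [← hL]; exact hz)
  rw [← hL, hNη] at c1 c2 c3
  have d1 : (A.card : ℝ) * (N - N * η) ≤ ∑ m ∈ Icc 1 N, Ys (H + 2) A m := by
    unfold Ys
    rw [sum_comm]
    have : (A.card : ℝ) * (N - N * η) = ∑ a ∈ A, ((N : ℝ) - N * η) := by rw [sum_const, nsmul_eq_mul]
    rw [this]
    apply sum_le_sum
    intro a _
    have h := (abs_le.1 (c3 a)).1
    simp_rw [lz_cast]
    linarith
  have d2 : ∑ m ∈ Icc 1 N, Ys (H + 2) A m ^ (j + 1) - (A.card : ℝ) ^ (j + 1) * (2 * (N * η)) ≤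
      ∑ m ∈ Icc 1 N, l * ((A.filter (fun a => (m + a).Prime)).card : ℝ) * Ys (H + 2) A m ^ j := by
    refine c1.trans ?_
    apply sum_le_sum
    intro m hm
    rw [hl]
    exact mul_le_mul_of_nonneg_right (Fs_le x (by linarith) N H hNH.le A hAH m hm) (pow_nonneg (Ys_nonneg _ _ _) _)
  obtain ⟨m1, m2⟩ := moments hF (Icc 1 N) (Ys (H + 2) A) (fun m => (A.filter (fun a => (m + a).Prime)).card) j hj
    A.card l η δ N (by rw [Nat.card_Icc, Nat.add_sub_cancel]) (Nat.cast_nonneg _) hl0 hη0 hδ1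
    (by rw [← hK]; exact hηδ) (by rw [← hK]; exact hAc) (fun m => Ys_nonneg _ _ _) d1 d2
  have m3 := ser_le hB hF hSer j H (H + 2) N (by omega) (N * η) (by positivity) A hAH c2
  have m4 := tc_ge hB x N (j + 1) (by omega) A
  obtain ⟨S, hS⟩ : ∃ S, S = ∑ m ∈ Icc 1 N, Ys (H + 2) A m ^ (j + 1) := ⟨_, rfl⟩
  obtain ⟨F, hFF⟩ : ∃ F : ℝ, F = ((j + 1).factorial : ℝ) := ⟨_, rfl⟩
  have hF0 : 0 < F := by rw [hFF]; exact_mod_cast Nat.factorial_pos _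
  obtain ⟨W, hW⟩ : ∃ W, W = l ^ (j + 1) * ∑ D ∈ A.powersetCard (j + 1), (tc x D : ℝ) := ⟨_, rfl⟩
  obtain ⟨P, hP⟩ : ∃ P, P = (A.card : ℝ) ^ (j + 1) := ⟨_, rfl⟩
  obtain ⟨Z, hZ⟩ : ∃ Z, Z = ∑ D ∈ A.powersetCard (j + 1), CT D := ⟨_, rfl⟩
  have hZ0 : 0 ≤ Z := by rw [hZ]; exact sum_nonneg fun D _ => Pool.Agent.H387R2.Uni.CT_nonneg D
  have hS0 : 0 ≤ S := by rw [hS]; exact sum_nonneg fun m _ => pow_nonneg (Ys_nonneg _ _ _) _
  have m5 : l ^ (j + 1) * ∑ m ∈ Icc 1 N, (((A.filter (fun a => (m + a).Prime)).card.choose (j + 1) : ℕ) : ℝ) ≤ W := by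
    rw [hW]
    exact mul_le_mul_of_nonneg_left m4 (by positivity)
  have m6 := mul_le_mul_of_nonneg_left m5 hF0.le
  rw [← hS, ← hP] at m1
  rw [← hS, ← hFF] at m2
  rw [← hFF, ← hS, ← hP, ← hZ] at m3
  rw [← hW, ← hZ, ← hP, ← hFF]
  have m7 : (1 - δ / 4) * S ≤ F * W := m2.trans m6
  have hη1 : 2 * η ≤ δ / 64 := by
    have : 2 * η ≤ K * η := mul_le_mul_of_nonneg_right hK2 hη0
    linarith
  constructor
  · have q1 : F * (N * Z) ≤ (1 + 2 * η) * S := by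
      have : η * (N * P) ≤ η * (2 * S) := mul_le_mul_of_nonneg_left m1 hη0
      linarith
    have q2 : (1 - δ / 8) * x ≤ N := by linarith
    have q3 : F * Z * ((1 - δ / 8) * x) ≤ F * Z * N := mul_le_mul_of_nonneg_left q2 (by positivity)
    have q4 : (1 - δ / 4) * (F * Z * ((1 - δ / 8) * x)) ≤ (1 + 2 * η) * (F * W) := by
      calc (1 - δ / 4) * (F * Z * ((1 - δ / 8) * x)) ≤ (1 - δ / 4) * ((1 + 2 * η) * S) := by
            apply mul_le_mul_of_nonneg_left _ (by linarith)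
            linarith
        _ = (1 + 2 * η) * ((1 - δ / 4) * S) := by ring
        _ ≤ _ := mul_le_mul_of_nonneg_left m7 (by linarith)
    have q5 : (1 + 2 * η) * (1 - δ) ≤ (1 - δ / 4) * (1 - δ / 8) := by
      have g1 : 0 ≤ η * δ := mul_nonneg hη0 hδ0.le
      have g2 : 0 ≤ δ * δ := mul_nonneg hδ0.le hδ0.le
      linarith
    have q6 : 0 ≤ F * Z * x := by positivity
    have q7 := mul_le_mul_of_nonneg_right q5 q6
    have q8 : (1 + 2 * η) * (F * ((1 - δ) * x * Z)) ≤ (1 + 2 * η) * (F * W) := by linarith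
    have q9 := le_of_mul_le_mul_left q8 (by linarith : 0 < 1 + 2 * η)
    exact le_of_mul_le_mul_left q9 hF0
  · have hP0 : 0 ≤ P := by rw [hP]; positivity
    have q1 : x * P ≤ 2 * N * P := mul_le_mul_of_nonneg_right (by linarith) hP0
    have q2 : 3 / 4 * S ≤ (1 - δ / 4) * S := mul_le_mul_of_nonneg_right (by linarith) hS0
    linarith

end Pool.Agent.L7h72.KT
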