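import Mathlib
import Pool.Agent.L7h50.KT.Ser

set_option autoImplicit false

/-! A uniform bound for the singular series. -/

namespace Pool.Agent.L7h72.KT

open Finset
open Pool.Agent.H387R2.Uni (nuT locT CT Adm)
open Pool.Agent.L7h50.KT (locT_nonneg nuT_le)

lemma loc_inj (D : Finset ℕ) {p : ℕ} (hp : p.Prime) (h : Set.InjOn (fun d => d % p) (D : Set ℕ)) : locT D p ≤ 1 := by
  unfold locT
  have hp0 : (0 : ℝ) < p := by exact_mod_cast hp.pos
  have hp2 : (2 : ℝ) ≤ p := by exact_mod_cast hp.two_le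
  have hnu : nuT D p = D.card := by
    unfold nuT
    rw [card_image_of_injOn]
    exact h
  rw [hnu]
  have h1 : 1 / (p : ℝ) ≤ 1 / 2 := one_div_le_one_div_of_le (by norm_num) hp2
  have h2 : 0 < 1 - 1 / (p : ℝ) := by linarith
  rw [div_le_one (pow_pos h2 _)]
  have h3 := one_add_mul_le_pow (a := -(1 / (p : ℝ))) (by linarith) D.card
  have e1 : 1 + (D.card : ℝ) * -(1 / (p : ℝ)) = 1 - (D.card : ℝ) / p := by ring
  have e2 : 1 + -(1 / (p : ℝ)) = 1 - 1 / (p : ℝ) := by ring
  rw [e1, e2] at h3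
  exact h3

lemma loc_pow (D : Finset ℕ) {p j : ℕ} (hp : p.Prime) (hD : D.card = j + 1) :
    locT D p ≤ ((1 - 1 / (p : ℝ))⁻¹) ^ j := by
  unfold locT
  have hp0 : (0 : ℝ) < p := by exact_mod_cast hp.pos
  have hp2 : (2 : ℝ) ≤ p := by exact_mod_cast hp.two_le
  have hne : D.Nonempty := by rw [← card_pos]; omega
  have hnu : 1 ≤ nuT D p := by
    unfold nuT
    exact card_pos.2 (hne.image _)
  have hnu' : (1 : ℝ) ≤ nuT D p := by exact_mod_cast hnu
  have h1 : 1 / (p : ℝ) ≤ 1 / 2 := one_div_le_one_div_of_le (by norm_num) hp2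
  have h2 : 0 < 1 - 1 / (p : ℝ) := by linarith
  rw [hD, inv_pow, div_le_iff₀ (by positivity), pow_succ, ← mul_assoc, inv_mul_cancel₀ (by positivity), one_mul]
  have : 1 / (p : ℝ) ≤ (nuT D p : ℝ) / p := div_le_div_of_nonneg_right hnu' hp0.le
  linarith

lemma prod_inv_le (s : Finset ℕ) : (∀ p ∈ s, 2 ≤ p) → ∏ p ∈ s, (1 - 1 / (p : ℝ))⁻¹ ≤ s.card + 1 := by
  classical
  induction s using Finset.induction_on_max with
  | empty => intro _; simp
  | insert a s hmax ih =>
    intro h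
    have hs : ∀ p ∈ s, 2 ≤ p := fun p hp => h p (mem_insert_of_mem hp)
    have ha : a ∉ s := fun h' => lt_irrefl a (hmax a h')
    have h3 : 2 ≤ a := h a (mem_insert_self _ _)
    have hc : s.card + 2 ≤ a := by
      have : s ⊆ Ico 2 a := fun p hp => by
        rw [mem_Ico]; exact ⟨hs p hp, hmax p hp⟩
      have := card_le_card this
      rw [Nat.card_Ico] at this
      omega
    rw [prod_insert ha, card_insert_of_notMem ha]
    have hcr : (s.card : ℝ) + 2 ≤ a := by exact_mod_cast hc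
    have hc0 : (0 : ℝ) ≤ s.card := Nat.cast_nonneg _
    have h5 := ih hs
    have h6 : 0 ≤ ∏ p ∈ s, (1 - 1 / (p : ℝ))⁻¹ := by
      apply prod_nonneg
      intro p hp
      have : (2 : ℝ) ≤ p := by exact_mod_cast hs p hp
      have h7 : 1 / (p : ℝ) ≤ 1 / 2 := one_div_le_one_div_of_le (by norm_num) this
      exact inv_nonneg.2 (by linarith)
    have ha0 : (0 : ℝ) < a := by linarith
    have h7 : (1 - 1 / (a : ℝ))⁻¹ ≤ (s.card + 2) / (s.card + 1) := by
      have e : (1 - 1 / (a : ℝ))⁻¹ = a / (a - 1) := by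
        have : (a : ℝ) - 1 ≠ 0 := by linarith
        field_simp
      rw [e, div_le_div_iff₀ (by linarith) (by linarith)]
      nlinarith
    calc (1 - 1 / (a : ℝ))⁻¹ * ∏ p ∈ s, (1 - 1 / (p : ℝ))⁻¹ ≤
        (s.card + 2) / (s.card + 1) * (s.card + 1) := mul_le_mul h7 h5 h6 (by positivity)
      _ = s.card + 2 := by
          have : (s.card : ℝ) + 1 ≠ 0 := by linarith
          field_simp
      _ = _ := by push_cast; ring

lemma om_le {d : ℕ} (hd : 1 ≤ d) : (d.primeFactors.card : ℝ) ≤ 2 * Real.log d := by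
  have h4 : 2 ^ d.primeFactors.card ≤ d := by
    have h5 : 2 ^ d.primeFactors.card ≤ ∏ p ∈ d.primeFactors, p := by
      apply Finset.pow_card_le_prod
      intro p hp
      exact (Nat.prime_of_mem_primeFactors hp).two_le
    exact h5.trans (Nat.le_of_dvd (by omega) (Nat.prod_primeFactors_dvd d))
  have h6 : (2 : ℝ) ^ d.primeFactors.card ≤ d := by exact_mod_cast h4
  have h7 := Real.log_le_log (by positivity) h6
  rw [Real.log_pow] at h7
  have h9 : (1 / 2 : ℝ) ≤ Real.log 2 := by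
    have := Real.log_two_gt_d9
    linarith
  have h10 : (0 : ℝ) ≤ d.primeFactors.card := Nat.cast_nonneg _
  have h11 : (d.primeFactors.card : ℝ) * (1 / 2) ≤ (d.primeFactors.card : ℝ) * Real.log 2 :=
    mul_le_mul_of_nonneg_left h9 h10
  linarith

/-- the primes dividing a difference -/
def dps (D : Finset ℕ) : Finset ℕ := (D ×ˢ D).biUnion (fun y => (y.2 - y.1).primeFactors)

lemma inj_of_not_mem (D : Finset ℕ) {p : ℕ} (hp : p.Prime) (h : p ∉ dps D) :
    Set.InjOn (fun d => d % p) (D : Set ℕ) := by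
  have key : ∀ a ∈ D, ∀ b ∈ D, a < b → a % p ≠ b % p := by
    intro a ha b hb hab he
    apply h
    unfold dps
    rw [mem_biUnion]
    refine ⟨(a, b), mem_product.2 ⟨ha, hb⟩, ?_⟩
    rw [Nat.mem_primeFactors]
    refine ⟨hp, ?_, by simp only; omega⟩
    exact (Nat.modEq_iff_dvd' hab.le).1 he
  intro a ha b hb he
  simp only at he
  rcases lt_trichotomy a b with h' | h' | h'
  · exact absurd he (key a ha b hb h')
  · exact h'
  · exact absurd he.symm (key b hb a ha h')

lemma CT_le_prod (D : Finset ℕ) : CT D ≤ ∏ p ∈ dps D, locT D p := by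
  classical
  have hP : HasProd (fun p : {p : ℕ // p.Prime} => locT D p.1) (CT D) :=
    Pool.Agent.H387R2.Uni.CT_hasProd D
  obtain ⟨s, hs⟩ : ∃ s : Finset {p : ℕ // p.Prime}, s = Finset.subtype Nat.Prime (dps D) := ⟨_, rfl⟩
  have e : ∏ p ∈ s, locT D p.1 = ∏ p ∈ dps D, locT D p := by
    rw [hs]
    rw [Finset.prod_subtype_eq_prod_filter (s := dps D) (p := Nat.Prime) (f := fun p : ℕ => locT D p)]
    apply prod_congr _ (fun _ _ => rfl)
    apply filter_true_of_mem
    intro p hp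
    unfold dps at hp
    rw [mem_biUnion] at hp
    obtain ⟨y, _, hy⟩ := hp
    exact Nat.prime_of_mem_primeFactors hy
  rw [← e]
  refine le_of_tendsto hP ?_
  filter_upwards [Filter.eventually_ge_atTop s] with t ht
  rw [← prod_sdiff ht]
  apply mul_le_of_le_one_left
  · exact prod_nonneg fun p _ => locT_nonneg D p.2
  · refine prod_le_one (fun p _ => locT_nonneg D p.2) (fun p hp => ?_)
    rw [mem_sdiff, hs] at hp
    apply loc_inj D p.2
    apply inj_of_not_mem D p.2
    intro h'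
    apply hp.2
    rw [Finset.mem_subtype]
    exact h'

/-- the uniform bound for the singular series -/
theorem bnd (k : ℕ) (hk : 1 ≤ k) : ∃ C : ℝ, 0 < C ∧ ∀ B : ℕ, ∃ X : ℝ, ∀ x : ℝ, X ≤ x → ∀ D : Finset ℕ, D.card = k →
    (∀ d ∈ D, (d : ℝ) ≤ Real.log x ^ B) → CT D ≤ (C * (B + 1) * Real.log (Real.log x)) ^ (k - 1) := by
  obtain ⟨j, rfl⟩ : ∃ j, k = j + 1 := ⟨k - 1, by omega⟩
  refine ⟨2 * ((j : ℝ) + 1) ^ 2 + 1, by positivity, fun B => ?_⟩
  have t := (Real.tendsto_log_atTop.comp Real.tendsto_log_atTop).eventually_ge_atTop 1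
  obtain ⟨X, hX⟩ := Filter.eventually_atTop.1 t
  refine ⟨max X 3, fun x hx D hD hDx => ?_⟩
  have hll : 1 ≤ Real.log (Real.log x) := hX x (le_trans (le_max_left _ _) hx)
  have hx3 : 3 ≤ x := le_trans (le_max_right _ _) hx
  have hl : 0 < Real.log x := Real.log_pos (by linarith)
  obtain ⟨M, hM⟩ : ∃ M, M = Real.log (Real.log x) := ⟨_, rfl⟩
  rw [← hM] at hll ⊢
  rw [Nat.add_sub_cancel]
  have hcard : ((dps D).card : ℝ) ≤ ((j : ℝ) + 1) ^ 2 * (2 * B * M) := by
    have h1 : ((dps D).card : ℝ) ≤ ∑ y ∈ D ×ˢ D, ((y.2 - y.1).primeFactors.card : ℝ) := by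
      exact_mod_cast card_biUnion_le
    refine h1.trans ?_
    have h2 : ∑ y ∈ D ×ˢ D, ((y.2 - y.1).primeFactors.card : ℝ) ≤ (D ×ˢ D).card • (2 * B * M) := by
      apply sum_le_card_nsmul
      intro y hy
      rw [mem_product] at hy
      rcases Nat.eq_zero_or_pos (y.2 - y.1) with h0 | h0
      · rw [h0]
        simp only [Nat.primeFactors_zero, card_empty, Nat.cast_zero]
        positivity
      · refine (om_le h0).trans ?_
        have h3 : ((y.2 - y.1 : ℕ) : ℝ) ≤ Real.log x ^ B := by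
          refine le_trans ?_ (hDx y.2 hy.2)
          exact_mod_cast Nat.sub_le _ _
        have h4 := Real.log_le_log (by exact_mod_cast h0) h3
        rw [Real.log_pow, ← hM] at h4
        linarith
    rw [card_product, hD, nsmul_eq_mul] at h2
    push_cast at h2
    linarith
  refine (CT_le_prod D).trans ?_
  have hpr : ∀ p ∈ dps D, p.Prime := by
    intro p hp
    unfold dps at hp
    rw [mem_biUnion] at hp
    obtain ⟨y, _, hy⟩ := hp
    exact Nat.prime_of_mem_primeFactors hy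
  calc ∏ p ∈ dps D, locT D p ≤ ∏ p ∈ dps D, ((1 - 1 / (p : ℝ))⁻¹) ^ j :=
        prod_le_prod (fun p hp => locT_nonneg D (hpr p hp)) (fun p hp => loc_pow D (hpr p hp) hD)
    _ = (∏ p ∈ dps D, (1 - 1 / (p : ℝ))⁻¹) ^ j := by rw [prod_pow]
    _ ≤ (((dps D).card : ℝ) + 1) ^ j := by
        apply pow_le_pow_left₀
        · apply prod_nonneg
          intro p hp
          have : (2 : ℝ) ≤ p := by exact_mod_cast (hpr p hp).two_le
          have h7 : 1 / (p : ℝ) ≤ 1 / 2 := one_div_le_one_div_of_le (by norm_num) this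
          exact inv_nonneg.2 (by linarith)
        · exact prod_inv_le _ fun p hp => (hpr p hp).two_le
    _ ≤ _ := by
        apply pow_le_pow_left₀ (by positivity)
        have hB : (0 : ℝ) ≤ B := Nat.cast_nonneg _
        have e1 : (2 * ((j : ℝ) + 1) ^ 2 + 1) * (B + 1) * M = ((j : ℝ) + 1) ^ 2 * (2 * B * M) + 2 * ((j : ℝ) + 1) ^ 2 * M + B * M + M := by ring
        rw [e1]
        have e2 : 0 ≤ 2 * ((j : ℝ) + 1) ^ 2 * M := by positivity
        have e3 : 0 ≤ B * M := by positivity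
        linarith

end Pool.Agent.L7h72.KT
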